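import Pool.Agent.W743.HP.Stm

/-!
Project HP (helper743), problem MP_8f331d_an: hyperbolic balls are Euclidean balls of the disc.
-/

set_option autoImplicit false

open Set Filter Topology MeasureTheory

namespace Pool.Agent.W381.HP

open Pool.Agent.W743.HP

/-- completing the square -/
theorem key (a b R x y D : ℝ) (hD : D = a ^ 2 + (1 + b) ^ 2 - R ^ 2) (hD0 : 0 < D) :
    (-a + a * x - (1 + b) * y) ^ 2 + ((1 - b) + a * y + (1 + b) * x) ^ 2
      - R ^ 2 * ((1 - x) ^ 2 + y ^ 2) =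
    D * ((x - (a ^ 2 + b ^ 2 - R ^ 2 - 1) / D) ^ 2 + (y - (-2 * a) / D) ^ 2
      - (2 * R / D) ^ 2) := by
  have h1 : D * ((x - (a ^ 2 + b ^ 2 - R ^ 2 - 1) / D) ^ 2 + (y - (-2 * a) / D) ^ 2
      - (2 * R / D) ^ 2) = D * (x ^ 2 + y ^ 2) - 2 * (a ^ 2 + b ^ 2 - R ^ 2 - 1) * x + 4 * a * y
      + ((a ^ 2 + b ^ 2 - R ^ 2 - 1) ^ 2 + 4 * a ^ 2 - 4 * R ^ 2) / D := by
    field_simp
    ring
  have h2 : ((a ^ 2 + b ^ 2 - R ^ 2 - 1) ^ 2 + 4 * a ^ 2 - 4 * R ^ 2) / D =
      a ^ 2 + (1 - b) ^ 2 - R ^ 2 := by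
    rw [div_eq_iff hD0.ne', hD]
    ring
  rw [h1, h2, hD]
  ring

theorem sq_dist (z w : ℂ) : dist z w ^ 2 = (z.re - w.re) ^ 2 + (z.im - w.im) ^ 2 := by
  rw [Complex.dist_eq, Complex.sq_norm, Complex.normSq_apply, Complex.sub_re, Complex.sub_im]
  ring

/-- the equivalence of the two disc conditions -/
theorem equiv (C : ℂ) (R : ℝ) (hR : 0 < R) (hCR : R < C.im) (w : ℂ) (hw : w ≠ 1) :
    dist (Complex.I * (1 + w) / (1 - w)) C ≤ R ↔
      dist w ⟨(C.re ^ 2 + C.im ^ 2 - R ^ 2 - 1) / (C.re ^ 2 + (1 + C.im) ^ 2 - R ^ 2),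
        (-2 * C.re) / (C.re ^ 2 + (1 + C.im) ^ 2 - R ^ 2)⟩ ≤
        2 * R / (C.re ^ 2 + (1 + C.im) ^ 2 - R ^ 2) := by
  set D := C.re ^ 2 + (1 + C.im) ^ 2 - R ^ 2 with hD
  have hD0 : 0 < D := by nlinarith [sq_nonneg C.re]
  have hw' : (1 : ℂ) - w ≠ 0 := sub_ne_zero.mpr hw.symm
  have hn : 0 < (1 - w.re) ^ 2 + w.im ^ 2 := by
    have h := Complex.normSq_pos.mpr hw'
    rw [Complex.normSq_apply] at h
    simp only [Complex.sub_re, Complex.sub_im, Complex.one_re, Complex.one_im] at h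
    nlinarith
  have e1 : Complex.I * (1 + w) / (1 - w) - C =
      ((Complex.I - C) + (Complex.I + C) * w) / (1 - w) := by
    field_simp
    ring
  have e2 : dist (Complex.I * (1 + w) / (1 - w)) C ^ 2 =
      ((-C.re + C.re * w.re - (1 + C.im) * w.im) ^ 2 +
        ((1 - C.im) + C.re * w.im + (1 + C.im) * w.re) ^ 2) / ((1 - w.re) ^ 2 + w.im ^ 2) := by
    rw [Complex.dist_eq, Complex.sq_norm, e1, Complex.normSq_div]
    congr 1
    · rw [Complex.normSq_apply]
      simp only [Complex.add_re, Complex.add_im, Complex.sub_re, Complex.sub_im, Complex.mul_re,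
        Complex.mul_im, Complex.I_re, Complex.I_im]
      ring
    · rw [Complex.normSq_apply]
      simp only [Complex.sub_re, Complex.sub_im, Complex.one_re, Complex.one_im]
      ring
  have e3 : dist (Complex.I * (1 + w) / (1 - w)) C ≤ R ↔
      dist (Complex.I * (1 + w) / (1 - w)) C ^ 2 ≤ R ^ 2 := by
    rw [sq_le_sq₀ dist_nonneg hR.le]
  have hρ : 0 < 2 * R / D := by positivity
  rw [e3, ← sq_le_sq₀ dist_nonneg hρ.le, e2, sq_dist, div_le_iff₀ hn]
  have hk := key C.re C.im R w.re w.im D hD hD0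
  constructor
  · intro h
    have h1 : D * ((w.re - (C.re ^ 2 + C.im ^ 2 - R ^ 2 - 1) / D) ^ 2 +
        (w.im - (-2 * C.re) / D) ^ 2 - (2 * R / D) ^ 2) ≤ 0 := by
      rw [← hk]; linarith
    have h2 := nonpos_of_mul_nonpos_right h1 hD0
    linarith
  · intro h
    have h1 : D * ((w.re - (C.re ^ 2 + C.im ^ 2 - R ^ 2 - 1) / D) ^ 2 +
        (w.im - (-2 * C.re) / D) ^ 2 - (2 * R / D) ^ 2) ≤ 0 := by
      apply mul_nonpos_of_nonneg_of_nonpos hD0.le
      linarith
    rw [← hk] at h1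
    linarith

/-- the Euclidean ball is inside the unit disc -/
theorem inside (C : ℂ) (R : ℝ) (hR : 0 < R) (hCR : R < C.im) :
    Metric.closedBall (⟨(C.re ^ 2 + C.im ^ 2 - R ^ 2 - 1) / (C.re ^ 2 + (1 + C.im) ^ 2 - R ^ 2),
        (-2 * C.re) / (C.re ^ 2 + (1 + C.im) ^ 2 - R ^ 2)⟩ : ℂ)
        (2 * R / (C.re ^ 2 + (1 + C.im) ^ 2 - R ^ 2)) ⊆ Metric.ball 0 1 := by
  set D := C.re ^ 2 + (1 + C.im) ^ 2 - R ^ 2 with hD
  have hD0 : 0 < D := by nlinarith [sq_nonneg C.re]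
  apply Metric.closedBall_subset_ball'
  have hs : 0 < C.re ^ 2 + C.im ^ 2 - R ^ 2 := by nlinarith [sq_nonneg C.re]
  have h2R : 2 * R < D := by nlinarith
  have h1 : dist (⟨(C.re ^ 2 + C.im ^ 2 - R ^ 2 - 1) / D, (-2 * C.re) / D⟩ : ℂ) 0 <
      (D - 2 * R) / D := by
    rw [← sq_lt_sq₀ dist_nonneg (div_nonneg (by linarith) hD0.le), sq_dist]
    simp only [Complex.zero_re, Complex.zero_im, sub_zero]
    rw [div_pow, div_pow, div_pow, ← add_div]
    apply div_lt_div_of_pos_right _ (by positivity)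
    have h3 : 0 < C.im - R := by linarith
    have h4 : (D - 2 * R) ^ 2 - ((C.re ^ 2 + C.im ^ 2 - R ^ 2 - 1) ^ 2 + (-2 * C.re) ^ 2) =
        4 * (C.im - R) * (C.im + R) + 4 * (C.re ^ 2 + C.im ^ 2 - R ^ 2 + 1) * (C.im - R) +
          4 * (C.im - R) ^ 2 := by
      rw [hD]; ring
    have h5 : 0 < 4 * (C.im - R) * (C.im + R) + 4 * (C.re ^ 2 + C.im ^ 2 - R ^ 2 + 1) * (C.im - R) +
          4 * (C.im - R) ^ 2 := by
      have : 0 < C.im + R := by linarith
      positivity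
    linarith
  have h2 : 2 * R / D + (D - 2 * R) / D = 1 := by
    rw [← add_div]
    rw [div_eq_one_iff_eq hD0.ne']
    ring
  linarith

theorem im_cay {w : ℂ} (hw : w ∈ Metric.ball (0 : ℂ) 1) :
    0 < (Complex.I * (1 + w) / (1 - w)).im := by
  rw [Metric.mem_ball, dist_zero_right] at hw
  have h1 : Complex.normSq w < 1 := by
    rw [← Complex.sq_norm]
    nlinarith [norm_nonneg w]
  rw [Complex.normSq_apply] at h1
  have h3 : (1 : ℂ) - w ≠ 0 := by
    intro h
    have : w = 1 := (sub_eq_zero.mp h).symm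
    rw [this] at h1
    norm_num at h1
  have h2 : 0 < Complex.normSq (1 - w) := Complex.normSq_pos.mpr h3
  rw [Complex.div_im]
  simp only [Complex.mul_re, Complex.mul_im, Complex.add_re, Complex.add_im, Complex.sub_re,
    Complex.sub_im, Complex.one_re, Complex.one_im, Complex.I_re, Complex.I_im]
  rw [← sub_div]
  apply div_pos _ h2
  nlinarith

theorem ball : S_BALL := by
  intro z r hr
  have him : 0 < z.im := z.im_pos
  have hsinh : 0 < Real.sinh r := Real.sinh_pos_iff.mpr hr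
  obtain ⟨C, hC⟩ : ∃ C : ℂ, C = ((z.center r : UpperHalfPlane) : ℂ) := ⟨_, rfl⟩
  obtain ⟨R, hRdef⟩ : ∃ R : ℝ, R = z.im * Real.sinh r := ⟨_, rfl⟩
  have hR : 0 < R := by rw [hRdef]; positivity
  have hCR : R < C.im := by
    rw [hRdef, hC]
    have : ((z.center r : UpperHalfPlane) : ℂ).im = z.im * Real.cosh r := rfl
    rw [this]
    exact mul_lt_mul_of_pos_left (Real.sinh_lt_cosh r) him
  have hball : ∀ τ : UpperHalfPlane, τ ∈ Metric.closedBall z r ↔ dist (τ : ℂ) C ≤ R := by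
    intro τ
    rw [Metric.mem_closedBall, UpperHalfPlane.dist_le_iff_dist_coe_center_le, hC, hRdef]
  have hD0 : 0 < C.re ^ 2 + (1 + C.im) ^ 2 - R ^ 2 := by nlinarith [sq_nonneg C.re]
  have hin := inside C R hR hCR
  refine ⟨_, _, div_pos (by linarith) hD0, hin, ?_⟩
  ext τ
  rw [hball]
  constructor
  · rintro ⟨w, hw, rfl⟩
    have hw1 := hin hw
    have him := im_cay hw1
    have hne : w ≠ 1 := by
      rintro rfl
      rw [Metric.mem_ball, dist_zero_right] at hw1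
      norm_num at hw1
    have h1 : ((cay w : UpperHalfPlane) : ℂ) = Complex.I * (1 + w) / (1 - w) := by
      unfold cay
      rw [UpperHalfPlane.ofComplex_apply_of_im_pos him]
    rw [h1, equiv C R hR hCR w hne]
    exact Metric.mem_closedBall.mp hw
  · intro h
    have hτ : (τ : ℂ) + Complex.I ≠ 0 := by
      intro h0
      have h1 := congrArg Complex.im h0
      simp only [Complex.add_im, Complex.I_im, Complex.zero_im] at h1
      have h2 : 0 < (τ : ℂ).im := τ.im_pos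
      linarith
    have e1 : (1 : ℂ) - ((τ : ℂ) - Complex.I) / ((τ : ℂ) + Complex.I) =
        2 * Complex.I / ((τ : ℂ) + Complex.I) := by
      field_simp
      ring
    have e2 : (1 : ℂ) + ((τ : ℂ) - Complex.I) / ((τ : ℂ) + Complex.I) =
        2 * (τ : ℂ) / ((τ : ℂ) + Complex.I) := by
      field_simp
      ring
    have hne : ((τ : ℂ) - Complex.I) / ((τ : ℂ) + Complex.I) ≠ 1 := by
      intro h0
      rw [h0, sub_self] at e1
      have h1 : 2 * Complex.I / ((τ : ℂ) + Complex.I) ≠ 0 :=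
        div_ne_zero (mul_ne_zero two_ne_zero Complex.I_ne_zero) hτ
      exact h1 e1.symm
    have e3 : Complex.I * (1 + ((τ : ℂ) - Complex.I) / ((τ : ℂ) + Complex.I)) /
        (1 - ((τ : ℂ) - Complex.I) / ((τ : ℂ) + Complex.I)) = τ := by
      rw [e1, e2]
      have hI := Complex.I_ne_zero
      field_simp
    refine ⟨((τ : ℂ) - Complex.I) / ((τ : ℂ) + Complex.I), ?_, ?_⟩
    · rw [Metric.mem_closedBall, ← equiv C R hR hCR _ hne, e3]
      exact h
    · unfold cay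
      rw [e3, UpperHalfPlane.ofComplex_apply]

end Pool.Agent.W381.HP
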